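import Pool.Agent.Helper6.OB.Goals

/-!
# Project OB, packet BAS: the base
-/

set_option autoImplicit false

namespace Pool.Agent.Helper23.OB

open Pool.Agent.Helper6.CS Pool.Agent.Helper6.OB
open Pool.Agent.Helper41.CS (Vx OOW limW len_app get_app_lt get_app_ge app_assoc len_nil nil_app
  app_nil len_sg get_sg over_nil over_app over_sg len_sub get_sub sub_app over_sub sub_eq_self
  sub_sg_self bdd_words code_fun len_isub get_isub isub_app isub_over isub_left isub_var)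

set_option synthInstance.maxSize 1000000000

theorem many {M : Type} [World M] (h : G_CS1) (a L r : M) :
    ∃ B : M, ∀ χ, ColB a (L + B) r χ → ∃ y, Bk a y ∧ lb y ≤ B ∧ Dg a L χ y := by
  obtain ⟨B, hB⟩ := h M a (nb r (nb a L))
  refine ⟨B, fun χ hχ => ?_⟩
  have h0 : 0 < r := lt_of_le_of_lt (World.zero_le' _)
    (hχ (Wd.nil M) (over_nil a) (by rw [len_nil]; exact World.zero_le' _))
  obtain ⟨σ, τ, hσ, hτ, hl, hc⟩ := hB
    (fun z => (Cod.cd (rst a L fun g => apn χ (g ++ z)) : M)) inferInstance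
    (fun z hz hzl => cd_rst_lt h0 fun g hg hgl => hχ _ (over_app hg hz) (by
      rw [len_app]
      exact add_le_add hgl hzl))
  have hbl : ∀ e : M, bl a e (σ, Wd.sg a ++ τ) = σ ++ Wd.sg e ++ Wd.sub a e τ := by
    intro e
    unfold bl
    simp only
    rw [sub_app, sub_sg_self, app_assoc]
  refine ⟨(σ, Wd.sg a ++ τ), ⟨hσ, ?_, ?_, ?_⟩, ?_, ?_⟩
  · exact over_app (over_sg (lt_add_of_pos_right a zero_lt_one)) hτ
  · rw [len_app, len_sg]
    exact le_add_of_nonneg_right (World.zero_le' _)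
  · rw [get_app_lt (by rw [len_sg]; exact zero_lt_one), get_sg]
  · unfold lb
    simp only
    rw [len_app, len_sg, add_comm 1]
    exact hl
  · intro g hg hgl e d he hd
    rw [hbl, hbl]
    have h1 : (Cod.cd (rst a L fun g => apn χ (g ++ (σ ++ Wd.sg e ++ Wd.sub a e τ))) : M)
        = Cod.cd (rst a L fun g => apn χ (g ++ (σ ++ Wd.sg d ++ Wd.sub a d τ))) :=
      (hc e he).trans (hc d hd).symm
    exact (rst_eq (F := fun g => apn χ (g ++ (σ ++ Wd.sg e ++ Wd.sub a e τ)))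
      (F' := fun g => apn χ (g ++ (σ ++ Wd.sg d ++ Wd.sub a d τ)))).1 (Cod.inj h1) g hg hgl

theorem t_BAS : G_BAS := by
  intro h M _ a b
  refine ⟨inferInstance, inferInstance, ⟨1, fun _ => zero_lt_one⟩, fun _ _ _ _ _ => trivial,
    fun _ _ _ _ _ _ _ _ _ => rfl, fun _ _ _ _ _ _ _ => trivial,
    fun _ _ _ _ _ _ _ => trivial, fun _ => ⟨0, fun g _ => ⟨Wd.nil M, over_nil a, ?_, ?_⟩⟩, ?_⟩
  · rw [len_nil]
  · intro _ _ _
    rfl
  · intro L r
    obtain ⟨B, hB⟩ := many h a L r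
    refine ⟨B, fun χ hχ => ?_⟩
    obtain ⟨y, h1, h2, h3⟩ := hB χ hχ
    exact ⟨y, h1, h2, h3, trivial⟩

end Pool.Agent.Helper23.OB
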